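import Pool.Agent.Helper27.Mess.Defs

/-! # MS-2: chain maps of nonnegative degree which vanish on homology are null-homotopic -/

set_option autoImplicit false

namespace Pool.Agent.Helper27.Mess

open Finset
open scoped IsMulCommutative

universe u v w

variable {Γ : Type u} [Group Γ] {C : Type v} [AddCommGroup C] [Module (MonoidAlgebra ℤ Γ) C]

theorem ms2_dd (G : GrRes Γ C) (x : C) : G.d (G.d x) = 0 := ((G.exact (G.d x)).2 ⟨x, rfl⟩).1

theorem ms2_εd (G : GrRes Γ C) (x : C) : G.ε (G.d x) = 0 := ((G.exact (G.d x)).2 ⟨x, rfl⟩).2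

theorem ms2_επ (G : GrRes Γ C) (i : ℤ) (hi : i ≠ 0) (x : C) : G.ε (G.π i x) = 0 := by
  rw [← G.ε_π, G.π_ne 0 i x (Ne.symm hi), map_zero]

theorem ms2_step [Module.Projective (MonoidAlgebra ℤ Γ) C] (G : GrRes Γ C) (q : ℕ)
    (ω : C →ₗ[MonoidAlgebra ℤ Γ] C) (hdeg : ∀ (i : ℤ) (x : C), ω (G.π i x) = G.π (i + q) (ω x))
    (hω : ∀ x, G.d (ω x) = ω (G.d x)) (hε : q = 0 → ∀ x, G.ε (ω x) = 0) (i : ℕ) :
    ∃ h : C →ₗ[MonoidAlgebra ℤ Γ] C,
      (∀ (i : ℤ) (x : C), h (G.π i x) = G.π (i + q + 1) (h x)) ∧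
      ∀ j : ℕ, j < i → ∀ x, G.d (h (G.π j x)) + h (G.d (G.π j x)) = ω (G.π j x) := by
  induction i with
  | zero => exact ⟨0, fun i x => by simp, fun j hj => absurd hj (Nat.not_lt_zero j)⟩
  | succ i ih =>
    obtain ⟨h, h1, h2⟩ := ih
    set δ : C →ₗ[MonoidAlgebra ℤ Γ] C := ω - G.d ∘ₗ h - h ∘ₗ G.d with hδ
    have hδa : ∀ x, δ x = ω x - G.d (h x) - h (G.d x) := fun x => rfl
    have hδπ : ∀ (k : ℤ) (x : C), δ (G.π k x) = G.π (k + q) (δ x) := by
      intro k x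
      rw [hδa, hδa, map_sub, map_sub, hdeg, h1, G.d_π, G.d_π, h1]
      congr 3
      · ring_nf
      · ring_nf
    have hδd : ∀ x, G.d (δ x) = δ (G.d x) := by
      intro x
      rw [hδa, hδa, map_sub, map_sub, hω, ms2_dd, ms2_dd, map_zero]
      abel
    have hδ0 : ∀ j : ℕ, j < i → ∀ x, δ (G.π j x) = 0 := by
      intro j hj x
      rw [hδa, ← h2 j hj x]
      abel
    have hcyc : ∀ x, G.d (δ (G.π i x)) = 0 := by
      intro x
      rw [hδd, G.d_π]
      rcases Nat.eq_zero_or_pos i with h0 | hpos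
      · subst h0
        rw [G.π_neg _ _ (by simp), map_zero]
      · have : ((i : ℤ) - 1) = ((i - 1 : ℕ) : ℤ) := by omega
        rw [this, hδ0 (i - 1) (by omega)]
    have hεδ : ∀ x, G.ε (δ (G.π i x)) = 0 := by
      intro x
      by_cases h0 : i = 0 ∧ q = 0
      · obtain ⟨hi0, hq0⟩ := h0
        subst hi0
        rw [hδa, map_sub, map_sub, hε hq0, ms2_εd, G.d_π, G.π_neg _ _ (by simp), map_zero, map_zero]
        simp
      · rw [hδπ]
        exact ms2_επ G _ (by omega) _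
    have hran : ∀ x, δ (G.π i x) ∈ LinearMap.range G.d := by
      intro x
      obtain ⟨y, hy⟩ := (G.exact _).1 ⟨hcyc x, hεδ x⟩
      exact ⟨y, hy⟩
    obtain ⟨g₀, hg₀⟩ := Module.projective_lifting_property G.d.rangeRestrict
      ((δ ∘ₗ G.π i).codRestrict (LinearMap.range G.d) hran) G.d.surjective_rangeRestrict
    have hg₀' : ∀ x, G.d (g₀ x) = δ (G.π i x) := by
      intro x
      have := congrArg Subtype.val (LinearMap.congr_fun hg₀ x)
      simpa using this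
    set g : C →ₗ[MonoidAlgebra ℤ Γ] C := G.π ((i : ℤ) + q + 1) ∘ₗ g₀ ∘ₗ G.π i with hg
    have hga : ∀ x, g x = G.π ((i : ℤ) + q + 1) (g₀ (G.π i x)) := fun x => rfl
    have hgne : ∀ (k : ℤ) (x : C), k ≠ i → g (G.π k x) = 0 := by
      intro k x hk
      rw [hga, G.π_ne _ _ _ (Ne.symm hk), map_zero, map_zero]
    have hgdeg : ∀ (k : ℤ) (x : C), g (G.π k x) = G.π (k + q + 1) (g x) := by
      intro k x
      by_cases hk : k = i
      · subst hk
        rw [hga, hga, G.π_self, G.π_self]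
      · rw [hgne k x hk, hga, G.π_ne _ _ _ (by omega)]
    have hgd : ∀ x, G.d (g x) = δ (G.π i x) := by
      intro x
      rw [hga, G.d_π, hg₀', G.π_self, hδπ]
      rw [show (i : ℤ) + q + 1 - 1 = i + q by ring, G.π_self]
    refine ⟨h + g, fun k x => ?_, fun j hj x => ?_⟩
    · rw [LinearMap.add_apply, LinearMap.add_apply, map_add, h1, hgdeg]
    · rw [LinearMap.add_apply, LinearMap.add_apply, map_add]
      have hz : g (G.d (G.π j x)) = 0 := by
        rw [G.d_π]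
        exact hgne _ _ (by omega)
      rw [hz, hgd]
      rcases Nat.lt_succ_iff_lt_or_eq.1 hj with hlt | heq
      · rw [G.π_ne _ _ _ (by omega), map_zero, ← h2 j hlt x]
        abel
      · subst heq
        rw [G.π_self, hδa]
        abel

/-- MS-2: a chain map of nonnegative degree, inducing zero on homology, is null-homotopic. -/
theorem null_homotopy [Module.Projective (MonoidAlgebra ℤ Γ) C] (G : GrRes Γ C) (q : ℕ)
    (ω : C →ₗ[MonoidAlgebra ℤ Γ] C) (hdeg : ∀ (i : ℤ) (x : C), ω (G.π i x) = G.π (i + q) (ω x))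
    (hω : ∀ x, G.d (ω x) = ω (G.d x)) (hε : q = 0 → ∀ x, G.ε (ω x) = 0) :
    ∃ h : C →ₗ[MonoidAlgebra ℤ Γ] C,
      (∀ (i : ℤ) (x : C), h (G.π i x) = G.π (i + q + 1) (h x)) ∧
      ∀ x, G.d (h x) + h (G.d x) = ω x := by
  obtain ⟨h, h1, h2⟩ := ms2_step G q ω hdeg hω hε (G.n + 1)
  refine ⟨h, h1, fun x => ?_⟩
  have key : ∀ F : C →ₗ[MonoidAlgebra ℤ Γ] C, F x = ∑ i ∈ range (G.n + 1), F (G.π (i : ℤ) x) := by
    intro F
    rw [← map_sum, G.π_sum]
  have e1 := key (G.d ∘ₗ h)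
  have e2 := key (h ∘ₗ G.d)
  have e3 := key ω
  simp only [LinearMap.comp_apply] at e1 e2
  rw [e1, e2, e3, ← Finset.sum_add_distrib]
  exact Finset.sum_congr rfl fun j hj => h2 j (Finset.mem_range.1 hj) x

end Pool.Agent.Helper27.Mess
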